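import Pool.Agent.Lib.MP_52f683_gt.Closed

set_option autoImplicit false

open Pool.Agent.Lib.MP_52f683_gt in
/-- In an infinite thin `T1` space every countable discrete subspace is closed. -/
theorem Pool.Agent.Results.MP_52f683_gt.DiscreteClosed.result
    (S : Type*) [TopologicalSpace S] [T1Space S] [Infinite S]
    (thin : ∀ A B : Set S, Nonempty (A ≃ₜ B) → ∃ h : S ≃ₜ S, ⇑h '' A = B)
    (D : Set S) (hD : D.Countable) (hdisc : DiscreteTopology D) : IsClosed D := by
  by_cases hf : D.Finite
  · exact hf.isClosed
  refine Thin.cd_closed thin ⟨hf, hD, Set.disjoint_left.2 fun x hx h => ?_⟩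
  exact h.ne (discreteTopology_subtype_iff.1 hdisc x hx)
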