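import Pool.Agent.Lib.MP_52f683_gt.Hyper

set_option autoImplicit false

/-- In an infinite thin space any two nonempty open sets intersect. -/
theorem Pool.Agent.Results.MP_52f683_gt.Hyperconnected.result
    (S : Type*) [TopologicalSpace S] [Infinite S]
    (thin : ∀ A B : Set S, Nonempty (A ≃ₜ B) → ∃ h : S ≃ₜ S, ⇑h '' A = B)
    (U V : Set S) (hU : IsOpen U) (hV : IsOpen V) (hUne : U.Nonempty) (hVne : V.Nonempty) :
    (U ∩ V).Nonempty :=
  Pool.Agent.Lib.MP_52f683_gt.Thin.hyper thin hU hV hUne hVne
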