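import Pool.Agent.Lib.MP_52f683_gt.Irred

set_option autoImplicit false

/-- An infinite thin space is not a quasi-k-space: it has a non-closed subset whose trace on
every countably compact subset is relatively closed. -/
theorem Pool.Agent.Results.MP_52f683_gt.NoQuasiK.result
    (S : Type*) [TopologicalSpace S] [Infinite S]
    (thin : ∀ A B : Set S, Nonempty (A ≃ₜ B) → ∃ h : S ≃ₜ S, ⇑h '' A = B) :
    ∃ A : Set S, ¬ IsClosed A ∧
      ∀ K : Set S, IsCountablyCompact K → IsClosed (Subtype.val ⁻¹' A : Set K) := by
  by_contra h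
  refine Pool.Agent.Lib.MP_52f683_gt.Thin.not_coherent thin
    (Topology.IsCoherentWith.of_isClosed fun A hA => ?_)
  by_contra hn
  exact h ⟨A, hn, hA⟩
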