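import Pool.Agent.Lib.MP_52f683_gt.CS.Main

set_option autoImplicit false

open Pool.Agent.Lib.MP_52f683_gt in
/-- Every infinite thin space has an uncountable discrete subspace. -/
theorem Pool.Agent.Results.MP_52f683_gt.UncountableDiscrete.result
    (S : Type*) [TopologicalSpace S] [Infinite S]
    (thin : ∀ A B : Set S, Nonempty (A ≃ₜ B) → ∃ h : S ≃ₜ S, ⇑h '' A = B) :
    ∃ D : Set S, ¬ D.Countable ∧ DiscreteTopology D :=
  Thin.uncountable_discrete thin
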